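import Mathlib

set_option autoImplicit false

namespace Pool.Agent.Results.MP_387adc_co.NotUniversal

open Polynomial

/-- Real polynomials all of whose coefficients lie in `{0, 1} ∪ ℚ_{≥ 2}`. -/
def Adm (p : ℝ[X]) : Prop :=
  ∀ i, p.coeff i = 0 ∨ p.coeff i = 1 ∨ ∃ q : ℚ, 2 ≤ q ∧ p.coeff i = q

/-- The pointwise order on `[s, t]`. -/
def Le (s t : ℝ) (p q : ℝ[X]) : Prop := ∀ x ∈ Set.Icc s t, p.eval x ≤ q.eval x

theorem pow_le (p : ℝ[X]) (hp : Adm p) (t : ℝ) (ht : 0 ≤ t) (h0 : p ≠ 0) :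
    t ^ p.natDegree ≤ p.eval t := by
  have h1 : ∀ i, p.coeff i = 0 ∨ 1 ≤ p.coeff i := fun i => by
    rcases hp i with h | h | ⟨q, hq, h⟩
    · exact Or.inl h
    · exact Or.inr h.ge
    · right; rw [h]; exact_mod_cast (by linarith : (1 : ℚ) ≤ q)
  rw [eval_eq_sum_range, Finset.sum_range_succ]
  have h2 : 0 ≤ ∑ i ∈ Finset.range p.natDegree, p.coeff i * t ^ i :=
    Finset.sum_nonneg fun i _ => mul_nonneg (by rcases h1 i with h | h <;> linarith) (pow_nonneg ht _)
  have h3 : 1 ≤ p.coeff p.natDegree := (h1 _).resolve_left (leadingCoeff_ne_zero.2 h0)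
  nlinarith [pow_nonneg ht p.natDegree]

theorem result (s t : ℝ) (hs : 1 < s) (hst : s < t) :
    ∃ (A : Type) (_ : PartialOrder A), Countable A ∧
      ¬ ∃ f : A → ℝ[X], (∀ a, Adm (f a)) ∧ ∀ a b, a ≤ b ↔ Le s t (f a) (f b) := by
  classical
  refine ⟨WithTop (Finset ℕ), inferInstance, inferInstanceAs (Countable (Option (Finset ℕ))), ?_⟩
  rintro ⟨f, hf, hle⟩
  have ht : 1 < t := hs.trans hst
  obtain ⟨D, hD⟩ := pow_unbounded_of_one_lt ((f ⊤).eval t) ht
  have hdeg : ∀ a, (f a).natDegree < D + 1 := fun a => by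
    by_cases h0 : f a = 0
    · simp [h0]
    · have h1 := (pow_le _ (hf a) t (by linarith) h0).trans ((hle a ⊤).1 le_top t ⟨hst.le, le_rfl⟩)
      have := (pow_lt_pow_iff_right₀ ht).1 (h1.trans_lt hD)
      omega
  let e : Finset (Fin (D + 2)) → WithTop (Finset ℕ) := fun S => (S.image Fin.val : Finset ℕ)
  have he : ∀ S T, e S ≤ e T ↔ S ⊆ T := fun S T => by
    simp only [e, WithTop.coe_le_coe]
    exact Finset.image_subset_image_iff Fin.val_injective
  have hx : ∀ j : Fin (D + 2), ∃ x ∈ Set.Icc s t, (f (e {j}ᶜ)).eval x < (f (e {j})).eval x := by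
    intro j
    by_contra hn
    push Not at hn
    have := (he _ _).1 ((hle _ _).2 hn) (Finset.mem_singleton_self j)
    simp at this
  choose x hx hlt using hx
  have key : ∀ S T j, j ∉ S → j ∈ T → (f (e S)).eval (x j) < (f (e T)).eval (x j) := by
    intro S T j hS hT
    refine (((hle _ _).1 ((he S {j}ᶜ).2 ?_) _ (hx j)).trans_lt (hlt j)).trans_le
      ((hle _ _).1 ((he {j} T).2 (by simpa using hT)) _ (hx j))
    intro a ha
    simp only [Finset.mem_compl, Finset.mem_singleton]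
    rintro rfl
    exact hS ha
  have hdep : ¬ LinearIndependent ℝ fun (j : Fin (D + 2)) (k : Fin (D + 1)) => x j ^ (k : ℕ) :=
    fun h => by simpa using h.fintype_card_le_finrank
  obtain ⟨g, hg, j₀, hj₀⟩ := Fintype.not_linearIndependent_iff.1 hdep
  have hz : ∀ a, ∑ j, g j * (f a).eval (x j) = 0 := fun a => by
    simp only [eval_eq_sum_range' (hdeg a), Finset.mul_sum, Finset.sum_range]
    rw [Finset.sum_comm]
    refine Finset.sum_eq_zero fun k _ => ?_
    have := congrFun hg k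
    simp only [Finset.sum_apply, Pi.smul_apply, smul_eq_mul, Pi.zero_apply] at this
    calc _ = (f a).coeff k * ∑ j, g j * x j ^ (k : ℕ) := by
          rw [Finset.mul_sum]; exact Finset.sum_congr rfl fun j _ => by ring
      _ = 0 := by rw [this, mul_zero]
  let S : Finset (Fin (D + 2)) := Finset.univ.filter fun j => 0 < g j
  have hpos : ∀ j, g j ≠ 0 → g j * (f (e Sᶜ)).eval (x j) < g j * (f (e S)).eval (x j) := by
    intro j hj
    rcases lt_or_gt_of_ne hj with h | h
    · exact mul_lt_mul_of_neg_left (key S Sᶜ j (by simp [S, h.le]) (by simp [S, h.le])) h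
    · exact mul_lt_mul_of_pos_left (key Sᶜ S j (by simp [S, h]) (by simp [S, h])) h
  have := Finset.sum_lt_sum (s := Finset.univ) (fun j _ => show g j * (f (e Sᶜ)).eval (x j) ≤
    g j * (f (e S)).eval (x j) from by
      by_cases h : g j = 0
      · simp [h]
      · exact (hpos j h).le) ⟨j₀, Finset.mem_univ _, hpos j₀ hj₀⟩
  rw [hz, hz] at this
  exact lt_irrefl _ this

end Pool.Agent.Results.MP_387adc_co.NotUniversal
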